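import Pool.Agent.Helper221.CUR.Defs
import Pool.Agent.W296.NP.Chain

/-!
# The complex: 12 vertices, 52 tetrahedra, in a shelling order
-/

set_option autoImplicit false

namespace Pool.Agent.Helper221.CUR

open Finset

/-- the subset of `Fin 12` with a given bit mask -/
def tf (m : ℕ) : Finset (Fin 12) := univ.filter (fun i => m.testBit i.val = true)

theorem mem_tf {m : ℕ} {i : Fin 12} : i ∈ tf m ↔ m.testBit i.val = true := by
  simp [tf]

/-- the facets as bit masks, in a shelling order -/
def ML : List ℕ := [
  897, 1920, 3712, 2689, 1424, 401, 785, 3588, 3208, 2185, 2059, 139,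
  1192, 1200, 170, 1080, 3096, 2074, 3344, 2322, 786, 1794, 3332, 538,
  1542, 1348, 1346, 2370, 2115, 1091, 1031, 1093, 135, 166, 149, 180,
  60, 85, 92, 593, 600, 332, 300, 360, 2340, 2400, 550, 2596,
  2593, 2145, 609, 616]

/-- stellar exchanges leading from the complex to a single tetrahedron -/
def MS : List (ℕ × ℕ) := [
  (33, 2624), (1056, 152), (9, 2178), (264, 100), (257, 656), (48, 140), (288, 2116),
  (160, 14), (2080, 580), (260, 3136), (1025, 70), (320, 3074), (2052, 1600), (384, 1552),
  (768, 1042), (256, 3090), (1028, 578), (96, 524), (2064, 1034), (72, 532), (18, 1544),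
  (1040, 648), (24, 644), (2056, 1154), (1032, 642), (80, 517), (16, 645), (1088, 2562),
  (1024, 2690), (2176, 515), (2048, 579), (64, 519), (1, 646), (128, 526), (4, 554)]

/-- the set of the masks of the faces, as a bit mask -/
def FB : ℕ :=
  26505982365657319680085105974472306483676250652554592302241210307329698184740158968246583870530160068006609905757690586939417755261254507204400234338770562539152524540027207772629543493594665814862020802030356237346669557258102273488970089444624799335201883521071117701694697421885749146984346497440482584449420319110570670572582710731923809490159870799973004855172223806933156424203723958175750519835900850460080886054454082371078911755070146324804587182821413707724160634962834272416967322976063871654905400424425473356132417758702193089205822719257365108943876038247023213256585884526943501239131104484805872556137411225494415152625319632808735634326014060566945531723902397955010923771596460472245740687046309038706300828063225783372953439825727506386291222590246045053067641103873241878654694684394558980920680095249543456892885751590543987584755928443898451729998141098264658142437306615569950030010354740308355367645805543356647428845193056750573411350558680786235658090896269368718010923575495998206720199419170765040309595050487090249880434680343430082351344383598096539420173685991854046169949058180996079615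

/-- `m` is the mask of a face -/
def isF (m : ℕ) : Bool := ML.any (fun f => Nat.beq (m &&& f) m)

theorem FB_eq' : ∀ a < 64, ∀ b < 64, FB.testBit (64 * a + b) = isF (64 * a + b) := by
  decide +kernel

theorem FB_eq (m : ℕ) (hm : m < 4096) : FB.testBit m = isF m := by
  have h := FB_eq' (m / 64) (by omega) (m % 64) (by omega)
  rwa [Nat.div_add_mod] at h

theorem ML_lt : ∀ m ∈ ML, m < 4096 := by decide +kernel

/-- a mask of a set -/
def mk (σ : Finset (Fin 12)) : ℕ := Nat.ofBits (fun i : Fin 12 => decide (i ∈ σ))

theorem mk_lt (σ : Finset (Fin 12)) : mk σ < 4096 := Nat.ofBits_lt_two_pow _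

theorem tf_mk (σ : Finset (Fin 12)) : tf (mk σ) = σ := by
  ext i
  rw [mem_tf, mk, Nat.testBit_ofBits_lt _ _ i.isLt]
  simp

theorem testBit_ge {m v : ℕ} (h : m < 4096) (hv : 12 ≤ v) : m.testBit v = false := by
  apply Nat.testBit_lt_two_pow
  exact lt_of_lt_of_le h (Nat.pow_le_pow_right (n := 2) (by norm_num) hv)

theorem tf_subset {m f : ℕ} (hm : m < 4096) : tf m ⊆ tf f ↔ m &&& f = m := by
  constructor
  · intro h
    apply Nat.eq_of_testBit_eq
    intro i
    rw [Nat.testBit_and]
    rcases Nat.lt_or_ge i 12 with hi | hi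
    · have h1 := @h ⟨i, hi⟩
      rw [mem_tf, mem_tf] at h1
      dsimp only at h1
      cases hb : m.testBit i
      · simp
      · rw [h1 hb]; rfl
    · rw [testBit_ge hm hi]; simp
  · intro h i hi
    rw [mem_tf] at hi ⊢
    rw [← h, Nat.testBit_and, Bool.and_eq_true] at hi
    exact hi.2

theorem tf_insert_erase (m : ℕ) (u v : Fin 12) (hu : u ∈ tf m) :
    tf ((m ^^^ 2 ^ u.val) ||| 2 ^ v.val) = insert v ((tf m).erase u) := by
  ext i
  rw [mem_insert, mem_erase, mem_tf, mem_tf, Nat.testBit_or, Nat.testBit_xor, Nat.testBit_two_pow,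
    Nat.testBit_two_pow]
  rw [mem_tf] at hu
  by_cases hiv : i = v
  · subst hiv; simp
  · have h1 : ¬ v.val = i.val := fun h => hiv (Fin.ext h.symm)
    by_cases hiu : i = u
    · subst hiu; simp [hu, h1, hiv]
    · have h2 : ¬ u.val = i.val := fun h => hiu (Fin.ext h.symm)
      simp [h1, h2, hiv, hiu]

/-- The complex. -/
def BB : Cpx 12 where
  faces := univ.filter (fun σ => ∃ m ∈ ML, σ ⊆ tf m)
  empty_mem := by
    rw [mem_filter]
    exact ⟨mem_univ _, 897, by decide, empty_subset _⟩
  down := by
    intro σ hσ τ hτ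
    rw [mem_filter] at hσ ⊢
    obtain ⟨-, m, hm, h⟩ := hσ
    exact ⟨mem_univ _, m, hm, hτ.trans h⟩

theorem mem_BB {σ : Finset (Fin 12)} : σ ∈ BB.faces ↔ ∃ m ∈ ML, σ ⊆ tf m := by
  simp [BB]

theorem tf_mem_BB {m : ℕ} (hm : m < 4096) : tf m ∈ BB.faces ↔ isF m = true := by
  rw [mem_BB, isF, List.any_eq_true]
  constructor
  · rintro ⟨f, hf, h⟩
    exact ⟨f, hf, by rw [Nat.beq_eq, (tf_subset hm).1 h]⟩
  · rintro ⟨f, hf, h⟩
    refine ⟨f, hf, (tf_subset hm).2 ?_⟩
    rwa [Nat.beq_eq] at h

theorem tf_mem_BB' {m : ℕ} (hm : m < 4096) : tf m ∈ BB.faces ↔ FB.testBit m = true := by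
  rw [tf_mem_BB hm, FB_eq m hm]

/-- no admissible pair for the mask `m` -/
def chk (m : ℕ) : Bool :=
  !(m.testBit 0) || FB.testBit m || (List.range 12).all (fun v => m.testBit v ||
    (List.range 12).any (fun u => m.testBit u && !(FB.testBit ((m ^^^ 2 ^ u) ||| 2 ^ v))))

theorem chk_all : ∀ a < 64, ∀ b < 64, chk (64 * a + b) = true := by decide +kernel

/-- There is no nonface `N ∋ 0` with a vertex `v ∉ N` such that `(N \ {u}) ∪ {v}` is a face for
all `u ∈ N`. -/
theorem noPair (N : Finset (Fin 12)) (hN : N ∉ BB.faces) (h0 : (0 : Fin 12) ∈ N) (v : Fin 12)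
    (hv : v ∉ N) : ∃ u ∈ N, insert v (N.erase u) ∉ BB.faces := by
  obtain ⟨m, hm, rfl⟩ : ∃ m < 4096, tf m = N := ⟨mk N, mk_lt N, tf_mk N⟩
  have h := chk_all (m / 64) (by omega) (m % 64) (by omega)
  rw [Nat.div_add_mod] at h
  rw [mem_tf] at h0 hv
  have h0' : m.testBit 0 = true := h0
  rw [tf_mem_BB' hm] at hN
  rw [chk, h0', Bool.not_true, Bool.false_or, Bool.or_eq_true] at h
  have h1 := h.resolve_left hN
  rw [List.all_eq_true] at h1
  have h2 := h1 v.val (List.mem_range.2 v.isLt)
  rw [Bool.or_eq_true] at h2
  have h3 := h2.resolve_left hv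
  rw [List.any_eq_true] at h3
  obtain ⟨u, hu, h4⟩ := h3
  rw [List.mem_range] at hu
  rw [Bool.and_eq_true, Bool.not_eq_true'] at h4
  refine ⟨⟨u, hu⟩, mem_tf.2 h4.1, ?_⟩
  rw [← tf_insert_erase m ⟨u, hu⟩ v (mem_tf.2 h4.1)]
  have hlt : (m ^^^ 2 ^ u) ||| 2 ^ v.val < 4096 := by
    have e1 : (2:ℕ) ^ u < 2 ^ 12 := Nat.pow_lt_pow_right (by norm_num) hu
    have e2 : (2:ℕ) ^ v.val < 2 ^ 12 := Nat.pow_lt_pow_right (by norm_num) v.isLt
    exact Nat.or_lt_two_pow (Nat.xor_lt_two_pow hm e1) e2
  rw [tf_mem_BB' hlt, h4.2]
  simp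

end Pool.Agent.Helper221.CUR
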