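import Mathlib

/-!
# Simplicial complexes, balls, shellability, constructibility, convex union representability
-/

set_option autoImplicit false

namespace Pool.Agent.Helper221.CUR

/-- A simplicial complex on the ground set `Fin n`: a family of subsets containing the empty set
and closed under taking subsets. -/
structure Cpx (n : ℕ) where
  faces : Finset (Finset (Fin n))
  empty_mem : ∅ ∈ faces
  down : ∀ σ ∈ faces, ∀ τ ⊆ σ, τ ∈ faces

/-- The geometric realization in barycentric coordinates (topology induced from `Fin n → ℝ`). -/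
def Cpx.space {n : ℕ} (Δ : Cpx n) : Set (Fin n → ℝ) :=
  {x | (∀ i, 0 ≤ x i) ∧ ∑ i, x i = 1 ∧ Finset.univ.filter (fun i => x i ≠ 0) ∈ Δ.faces}

/-- `Δ` is a simplicial ball of dimension `d`. -/
def Cpx.IsBall {n : ℕ} (Δ : Cpx n) (d : ℕ) : Prop :=
  Nonempty (Δ.space ≃ₜ Metric.closedBall (0 : EuclideanSpace ℝ (Fin d)) 1)

/-- A nonempty family of sets all of whose inclusion-maximal members have `c` elements; for the
faces of a complex: the complex is pure of dimension `c - 1`. -/
def PureCard {n : ℕ} (C : Set (Finset (Fin n))) (c : ℕ) : Prop :=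
  C.Nonempty ∧ ∀ G, Maximal (· ∈ C) G → G.card = c

/-- A pure `k`-dimensional complex is shellable if its facets can be listed as `F_0, ..., F_{m-1}`
so that for each `j ≥ 1` the intersection of the simplex on `F_j` with the subcomplex generated by
`F_0, ..., F_{j-1}` is pure of dimension `k - 1`. -/
def Cpx.Shellable {n : ℕ} (Δ : Cpx n) (k : ℕ) : Prop :=
  PureCard (Δ.faces : Set (Finset (Fin n))) (k + 1) ∧
    ∃ l : List (Finset (Fin n)), l.Nodup ∧ (∀ F, F ∈ l ↔ Maximal (· ∈ Δ.faces) F) ∧
      ∀ (j : ℕ) (hj : j < l.length), 0 < j →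
        PureCard {G | G ⊆ l[j] ∧ ∃ (i : ℕ) (hi : i < j), G ⊆ l[i]} k

/-- Constructible complexes (given by their sets of faces); `Constructible c C` means that `C` is
constructible of dimension `c - 1`.  Every simplex is constructible, and so is the union of two
constructible complexes of dimension `c` whose intersection is a constructible complex of
dimension `c - 1`. -/
inductive Constructible {n : ℕ} : ℕ → Set (Finset (Fin n)) → Prop
  | simplex (σ : Finset (Fin n)) : Constructible σ.card {τ | τ ⊆ σ}
  | union (c : ℕ) (A B : Set (Finset (Fin n))) (hA : Constructible (c + 1) A)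
      (hB : Constructible (c + 1) B) (hAB : Constructible c (A ∩ B)) : Constructible (c + 1) (A ∪ B)

/-- `Δ` is convex union representable: it is the nerve of open convex subsets `U_i` of some `ℝ^d`
(the empty set is allowed) whose union is convex, where `U_∅` is the convex hull of the union. -/
def Cpx.ConvexUnionRepresentable {n : ℕ} (Δ : Cpx n) : Prop :=
  ∃ (d : ℕ) (U : Fin n → Set (EuclideanSpace ℝ (Fin d))),
    (∀ i, IsOpen (U i)) ∧ (∀ i, Convex ℝ (U i)) ∧ Convex ℝ (⋃ i, U i) ∧
    ∀ σ : Finset (Fin n), σ ∈ Δ.faces ↔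
      ((σ = ∅ ∧ (convexHull ℝ (⋃ i, U i)).Nonempty) ∨ (σ ≠ ∅ ∧ (⋂ i ∈ σ, U i).Nonempty))

end Pool.Agent.Helper221.CUR
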