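import Mathlib

/-!
# A necessary condition for convex union representability

Let `Δ` be the nerve of convex open sets with convex union.  If `Δ` is not a cone with apex `a`,
then there are a set `N ∋ a`, not in `Δ`, and a vertex `v ∉ N` such that all the sets
`(N \ {u}) ∪ {v}`, `u ∈ N`, are faces of `Δ`.
-/

set_option autoImplicit false

namespace Pool.Agent.Helper221.CUR

open Metric Set

variable {n : ℕ} {E : Type*} [NormedAddCommGroup E] [NormedSpace ℝ E]

/-- The weighted distances are large somewhere on every nonface, and small on one of them. -/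
theorem core (Δ : Finset (Finset (Fin n))) (hE : ∅ ∈ Δ) (K : Fin n → Set E) (P : Set E)
    (hP : IsCompact P) (hPc : Convex ℝ P) (hKP : ∀ i, K i ⊆ P) (hK : ∀ i, IsCompact (K i))
    (hKc : ∀ i, Convex ℝ (K i)) (hKne : ∀ i, (K i).Nonempty)
    (hcov : ∀ x ∈ P, ∃ i, x ∈ K i) (hface : ∀ σ ∈ Δ, ∃ z ∈ P, ∀ i ∈ σ, z ∈ K i)
    (hnon : ∀ σ, σ ∉ Δ → ∀ z, ∃ i ∈ σ, z ∉ K i) (hbad : ∃ σ, σ ∉ Δ)
    (w : Fin n → ℝ) (hw : ∀ i, 0 < w i) :
    ∃ N, N ∉ Δ ∧ ∃ r : ℝ, 0 < r ∧ ∃ x ∈ P, (∀ i ∈ N, w i * infDist x (K i) ≤ r) ∧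
      (∀ M, M ∉ Δ → ∀ y ∈ P, ∃ i ∈ M, r ≤ w i * infDist y (K i)) ∧
      ∃ v, v ∉ N ∧ ∀ u ∈ N, insert v (N.erase u) ∈ Δ := by
  classical
  have hPne : P.Nonempty := by
    obtain ⟨z, hz, -⟩ := hface ∅ hE
    exact ⟨z, hz⟩
  have hne : ∀ σ, σ ∉ Δ → σ.Nonempty := by
    intro σ hσ
    rw [Finset.nonempty_iff_ne_empty]
    rintro rfl
    exact hσ hE
  -- minimisers
  have h1 : ∀ σ : Finset (Fin n), σ ∉ Δ → ∃ r : ℝ, ∃ x ∈ P,
      (∀ i ∈ σ, w i * infDist x (K i) ≤ r) ∧ ∀ y ∈ P, ∃ i ∈ σ, r ≤ w i * infDist y (K i) := by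
    intro σ hσ
    have hs := hne σ hσ
    have hc : Continuous (fun x => σ.sup' hs (fun i => w i * infDist x (K i))) := by
      refine Continuous.finset_sup'_apply hs (fun i _ => ?_)
      exact continuous_const.mul (continuous_infDist_pt _)
    obtain ⟨x, hx, hmin⟩ := hP.exists_isMinOn hPne hc.continuousOn
    refine ⟨σ.sup' hs (fun i => w i * infDist x (K i)), x, hx, ?_, ?_⟩
    · intro i hi
      exact Finset.le_sup' (fun i => w i * infDist x (K i)) hi
    · intro y hy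
      have h2 : σ.sup' hs (fun i => w i * infDist x (K i)) ≤
          σ.sup' hs (fun i => w i * infDist y (K i)) := hmin hy
      obtain ⟨i, hi, he⟩ := Finset.exists_mem_eq_sup' hs (fun i => w i * infDist y (K i))
      exact ⟨i, hi, by rw [← he]; exact h2⟩
  choose! ρ X hXP hX1 hX2 using h1
  -- a nonface minimising `ρ`, then the number of elements
  set bad : Finset (Finset (Fin n)) := Finset.univ.filter (fun σ => σ ∉ Δ) with hbaddef
  have hbadne : bad.Nonempty := by
    obtain ⟨σ, hσ⟩ := hbad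
    exact ⟨σ, by simp [hbaddef, hσ]⟩
  obtain ⟨N₀, hN₀, hN₀min⟩ := Finset.exists_min_image bad ρ hbadne
  obtain ⟨N, hN, hNmin⟩ := Finset.exists_min_image (bad.filter (fun σ => ρ σ = ρ N₀))
    Finset.card ⟨N₀, by simp [hN₀]⟩
  rw [Finset.mem_filter] at hN
  have hNbad : N ∉ Δ := by simpa [hbaddef] using hN.1
  have hmin : ∀ σ, σ ∉ Δ → ρ N ≤ ρ σ := by
    intro σ hσ
    rw [hN.2]
    exact hN₀min σ (by simp [hbaddef, hσ])
  have hcard : ∀ σ, σ ∉ Δ → ρ σ = ρ N → N.card ≤ σ.card := by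
    intro σ hσ he
    exact hNmin σ (by simp [hbaddef, hσ, he, hN.2])
  -- comparison
  have hcmp : ∀ σ, σ ∉ Δ → ∀ y ∈ P, ∀ c, (∀ i ∈ σ, w i * infDist y (K i) ≤ c) → ρ σ ≤ c := by
    intro σ hσ y hy c h
    obtain ⟨i, hi, h2⟩ := hX2 σ hσ y hy
    exact h2.trans (h i hi)
  -- all proper subsets are faces
  have herase : ∀ u ∈ N, N.erase u ∈ Δ := by
    intro u hu
    by_contra hcon
    have h2 : ρ (N.erase u) ≤ ρ N :=
      hcmp _ hcon (X N) (hXP N hNbad) _ (fun i hi => hX1 N hNbad i (Finset.mem_of_mem_erase hi))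
    have h3 := hmin _ hcon
    have h4 := hcard _ hcon (le_antisymm h2 h3)
    have h5 := Finset.card_erase_lt_of_mem hu
    omega
  -- positivity
  have hpos : 0 < ρ N := by
    by_contra hcon
    push Not at hcon
    obtain ⟨i, hi, h2⟩ := hnon N hNbad (X N)
    apply h2
    have h3 := hX1 N hNbad i hi
    have h4 : infDist (X N) (K i) ≤ 0 := by
      by_contra h5
      push Not at h5
      have := mul_pos (hw i) h5
      linarith
    have h5 : infDist (X N) (K i) = 0 := le_antisymm h4 infDist_nonneg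
    exact ((hK i).isClosed.mem_iff_infDist_zero (hKne i)).2 h5
  obtain ⟨v, hv⟩ := hcov (X N) (hXP N hNbad)
  have hins : ∀ u ∈ N, insert v (N.erase u) ∈ Δ := by
    intro u hu
    by_contra hcon
    obtain ⟨z, hz, hzK⟩ := hface _ (herase u hu)
    -- a small step towards `z`
    set D : ℝ := w v * dist z (X N) with hD
    have hD0 : 0 ≤ D := mul_nonneg (hw v).le dist_nonneg
    set t : ℝ := min 1 (ρ N / (2 * (D + 1))) with ht
    have ht0 : 0 < t := lt_min one_pos (div_pos hpos (by linarith))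
    have ht1 : t ≤ 1 := min_le_left _ _
    have htD : t * D < ρ N := by
      have h2 : t ≤ ρ N / (2 * (D + 1)) := min_le_right _ _
      have h3 : t * D ≤ ρ N / (2 * (D + 1)) * D := mul_le_mul_of_nonneg_right h2 hD0
      have h4 : ρ N / (2 * (D + 1)) * D < ρ N := by
        rw [div_mul_eq_mul_div, div_lt_iff₀ (by linarith)]
        nlinarith
      linarith
    set y : E := (1 - t) • X N + t • z with hy
    have hyP : y ∈ P := hPc (hXP N hNbad) hz (by linarith) ht0.le (by ring)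
    have hyv : w v * infDist y (K v) < ρ N := by
      have h2 : infDist y (K v) ≤ dist y (X N) := infDist_le_dist_of_mem hv
      have h3 : dist y (X N) = t * dist z (X N) := by
        rw [dist_eq_norm, dist_eq_norm]
        have : y - X N = t • (z - X N) := by
          rw [hy]; module
        rw [this, norm_smul, Real.norm_eq_abs, abs_of_pos ht0]
      calc w v * infDist y (K v) ≤ w v * dist y (X N) := mul_le_mul_of_nonneg_left h2 (hw v).le
        _ = t * D := by rw [h3, hD]; ring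
        _ < ρ N := htD
    have hyi : ∀ i ∈ N.erase u, w i * infDist y (K i) ≤ (1 - t) * ρ N := by
      intro i hi
      obtain ⟨p, hp, hpd⟩ := (hK i).exists_infDist_eq_dist (hKne i) (X N)
      have h2 : infDist y (K i) ≤ dist y ((1 - t) • p + t • z) :=
        infDist_le_dist_of_mem (hKc i hp (hzK i hi) (by linarith) ht0.le (by ring))
      have h3 : dist y ((1 - t) • p + t • z) = (1 - t) * dist (X N) p := by
        rw [dist_eq_norm, dist_eq_norm]
        have : y - ((1 - t) • p + t • z) = (1 - t) • (X N - p) := by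
          rw [hy]; module
        rw [this, norm_smul, Real.norm_eq_abs, abs_of_nonneg (by linarith)]
      calc w i * infDist y (K i) ≤ w i * ((1 - t) * dist (X N) p) := by
            rw [← h3]; exact mul_le_mul_of_nonneg_left h2 (hw i).le
        _ = (1 - t) * (w i * infDist (X N) (K i)) := by rw [hpd]; ring
        _ ≤ (1 - t) * ρ N :=
            mul_le_mul_of_nonneg_left (hX1 N hNbad i (Finset.mem_of_mem_erase hi)) (by linarith)
    -- the new set has a smaller value
    set c : ℝ := max (w v * infDist y (K v)) ((1 - t) * ρ N) with hc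
    have hcr : c < ρ N := by
      rw [hc, max_lt_iff]
      refine ⟨hyv, ?_⟩
      nlinarith
    have h6 : ρ (insert v (N.erase u)) ≤ c := by
      refine hcmp _ hcon y hyP c ?_
      intro i hi
      rw [Finset.mem_insert] at hi
      rcases hi with rfl | hi
      · exact le_max_left _ _
      · exact (hyi i hi).trans (le_max_right _ _)
    have h7 := hmin _ hcon
    linarith
  refine ⟨N, hNbad, ρ N, hpos, X N, hXP N hNbad, hX1 N hNbad, ?_, v, ?_, hins⟩
  · intro M hM y hy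
    obtain ⟨i, hi, h2⟩ := hX2 M hM y hy
    exact ⟨i, hi, (hmin M hM).trans h2⟩
  · intro hvN
    have := hins v hvN
    rw [Finset.insert_erase hvN] at this
    exact hNbad this

/-- The nonface can be chosen to contain a given vertex. -/
theorem core_vertex (Δ : Finset (Finset (Fin n))) (hE : ∅ ∈ Δ) (K : Fin n → Set E) (P : Set E)
    (hP : IsCompact P) (hPc : Convex ℝ P) (hKP : ∀ i, K i ⊆ P) (hK : ∀ i, IsCompact (K i))
    (hKc : ∀ i, Convex ℝ (K i)) (hKne : ∀ i, (K i).Nonempty)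
    (hcov : ∀ x ∈ P, ∃ i, x ∈ K i) (hface : ∀ σ ∈ Δ, ∃ z ∈ P, ∀ i ∈ σ, z ∈ K i)
    (hnon : ∀ σ, σ ∉ Δ → ∀ z, ∃ i ∈ σ, z ∉ K i)
    (a : Fin n) (F : Finset (Fin n)) (hF : F ∈ Δ) (haF : insert a F ∉ Δ) :
    ∃ N, N ∉ Δ ∧ a ∈ N ∧ ∃ v, v ∉ N ∧ ∀ u ∈ N, insert v (N.erase u) ∈ Δ := by
  classical
  obtain ⟨-, -, c, hc, -, -, -, hmin, -⟩ := core Δ hE K P hP hPc hKP hK hKc hKne hcov hface hnon
    ⟨_, haF⟩ (fun _ => 1) (fun _ => one_pos)
  obtain ⟨z, hz, hzF⟩ := hface F hF
  set D : ℝ := infDist z (K a) with hD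
  have hD0 : 0 ≤ D := infDist_nonneg
  set η : ℝ := c / (2 * (D + 1)) with hη
  have hη0 : 0 < η := div_pos hc (by linarith)
  have hηD : η * D < c := by
    rw [hη, div_mul_eq_mul_div, div_lt_iff₀ (by linarith)]
    nlinarith
  set w : Fin n → ℝ := fun i => if i = a then η else 1 with hw
  have hw0 : ∀ i, 0 < w i := by
    intro i
    rw [hw]
    dsimp only
    split_ifs
    · exact hη0
    · exact one_pos
  obtain ⟨N, hN, r, hr, x, hx, hxr, hmin2, v, hv, hins⟩ := core Δ hE K P hP hPc hKP hK hKc hKne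
    hcov hface hnon ⟨_, haF⟩ w hw0
  have hrc : r < c := by
    obtain ⟨i, hi, h2⟩ := hmin2 _ haF z hz
    rw [Finset.mem_insert] at hi
    by_cases hia : i = a
    · subst hia
      have : w i = η := by simp [hw]
      rw [this] at h2
      linarith
    · have hi' : i ∈ F := hi.resolve_left hia
      have h3 : infDist z (K i) = 0 := infDist_zero_of_mem (hzF i hi')
      rw [h3, mul_zero] at h2
      linarith
  refine ⟨N, hN, ?_, v, hv, hins⟩
  obtain ⟨i, hi, h2⟩ := hmin N hN x hx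
  by_cases hia : i = a
  · rwa [← hia]
  · exfalso
    have h3 := hxr i hi
    have : w i = 1 := by simp [hw, hia]
    rw [this] at h3
    linarith

/-- Shrinking open sets to compact ones. -/
theorem exists_pair (Δ : Finset (Finset (Fin n))) (hE : ∅ ∈ Δ) (hsing : ∀ i, {i} ∈ Δ)
    (U : Fin n → Set E) (hU : ∀ i, IsOpen (U i)) (hUc : ∀ i, Convex ℝ (U i))
    (hUU : Convex ℝ (⋃ i, U i))
    (hnerve : ∀ σ : Finset (Fin n), σ.Nonempty → (σ ∈ Δ ↔ (⋂ i ∈ σ, U i).Nonempty))
    (a : Fin n) (F : Finset (Fin n)) (hF : F ∈ Δ) (haF : insert a F ∉ Δ) :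
    ∃ N, N ∉ Δ ∧ a ∈ N ∧ ∃ v, v ∉ N ∧ ∀ u ∈ N, insert v (N.erase u) ∈ Δ := by
  classical
  -- points of the faces
  have hp : ∀ σ : Finset (Fin n), ∃ p : E, σ ∈ Δ → σ.Nonempty → ∀ i ∈ σ, p ∈ U i := by
    intro σ
    by_cases h : σ ∈ Δ ∧ σ.Nonempty
    · obtain ⟨p, hp⟩ := (hnerve σ h.2).1 h.1
      refine ⟨p, fun _ _ i hi => ?_⟩
      rw [mem_iInter₂] at hp
      exact hp i hi
    · exact ⟨0, fun h1 h2 => absurd ⟨h1, h2⟩ h⟩
  choose p hp using hp
  set A : Set E := p '' {σ | σ ∈ Δ ∧ σ.Nonempty} with hA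
  have hAfin : A.Finite := (Set.toFinite _).image p
  have hAU : A ⊆ ⋃ i, U i := by
    rintro _ ⟨σ, ⟨h1, h2⟩, rfl⟩
    obtain ⟨i, hi⟩ := h2
    exact mem_iUnion.2 ⟨i, hp σ h1 ⟨i, hi⟩ i hi⟩
  set P : Set E := convexHull ℝ A with hPdef
  have hP : IsCompact P := hAfin.isCompact_convexHull ℝ
  have hPU : P ⊆ ⋃ i, U i := convexHull_min hAU hUU
  have hAP : ∀ σ ∈ Δ, σ.Nonempty → p σ ∈ P := fun σ h1 h2 =>
    subset_convexHull ℝ A ⟨σ, ⟨h1, h2⟩, rfl⟩
  -- Lebesgue number
  obtain ⟨δ₁, hδ₁, hL⟩ := lebesgue_number_lemma_of_metric hP hU hPU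
  have hε : ∀ q : Finset (Fin n) × Fin n, ∃ ε > 0, q.1 ∈ Δ → q.2 ∈ q.1 →
      ball (p q.1) ε ⊆ U q.2 := by
    rintro ⟨σ, i⟩
    by_cases h : σ ∈ Δ ∧ i ∈ σ
    · obtain ⟨ε, hε, h2⟩ := Metric.isOpen_iff.1 (hU i) (p σ) (hp σ h.1 ⟨i, h.2⟩ i h.2)
      exact ⟨ε, hε, fun _ _ => h2⟩
    · exact ⟨1, one_pos, fun h1 h2 => absurd ⟨h1, h2⟩ h⟩
  choose ε hε0 hε using hε
  obtain ⟨q₀, -, hq₀⟩ := Finset.exists_min_image (Finset.univ : Finset (Finset (Fin n) × Fin n)) ε
    ⟨(∅, a), Finset.mem_univ _⟩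
  set δ : ℝ := min δ₁ (ε q₀) with hδ
  have hδ0 : 0 < δ := lt_min hδ₁ (hε0 q₀)
  set K : Fin n → Set E := fun i => {x | x ∈ P ∧ ∀ y, y ∉ U i → δ ≤ dist x y} with hKdef
  have hball : ∀ i x, x ∈ P → ball x δ ⊆ U i → x ∈ K i := by
    intro i x hx h
    refine ⟨hx, fun y hy => ?_⟩
    by_contra hcon
    push Not at hcon
    exact hy (h (by rw [mem_ball, dist_comm]; exact hcon))
  have hKcl : ∀ i, IsClosed (K i) := by
    intro i
    have : K i = P ∩ ⋂ y ∈ (U i)ᶜ, {x | δ ≤ dist x y} := by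
      ext x
      simp only [hKdef, mem_ofPred_eq, mem_inter_iff, mem_iInter, mem_compl_iff]
    rw [this]
    refine hP.isClosed.inter (isClosed_biInter fun y _ => ?_)
    exact isClosed_le continuous_const (continuous_id.dist continuous_const)
  have hKP : ∀ i, K i ⊆ P := fun i x hx => hx.1
  have hKU : ∀ i, K i ⊆ U i := by
    intro i x hx
    by_contra hcon
    have := hx.2 x hcon
    rw [dist_self] at this
    linarith
  have hKc : ∀ i, Convex ℝ (K i) := by
    intro i x hx y hy s t hs ht hst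
    refine ⟨convex_convexHull ℝ A hx.1 hy.1 hs ht hst, fun q hq => ?_⟩
    by_contra hcon
    push Not at hcon
    apply hq
    set d : E := q - (s • x + t • y) with hd
    have hdn : ‖d‖ < δ := by
      rw [hd, ← dist_eq_norm, dist_comm]; exact hcon
    have hx' : x + d ∈ U i := by
      by_contra h
      have := hx.2 _ h
      rw [dist_eq_norm] at this
      have h2 : x - (x + d) = -d := by abel
      rw [h2, norm_neg] at this
      linarith
    have hy' : y + d ∈ U i := by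
      by_contra h
      have := hy.2 _ h
      rw [dist_eq_norm] at this
      have h2 : y - (y + d) = -d := by abel
      rw [h2, norm_neg] at this
      linarith
    have h3 := hUc i hx' hy' hs ht hst
    have h4 : s • (x + d) + t • (y + d) = q := by
      have : s • (x + d) + t • (y + d) = (s • x + t • y) + (s + t) • d := by module
      rw [this, hst, one_smul, hd]; abel
    rwa [h4] at h3
  have hpK : ∀ σ ∈ Δ, σ.Nonempty → ∀ i ∈ σ, p σ ∈ K i := by
    intro σ h1 h2 i hi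
    refine hball i _ (hAP σ h1 h2) ?_
    refine Subset.trans (ball_subset_ball ?_) (hε (σ, i) h1 hi)
    exact (min_le_right _ _).trans (hq₀ (σ, i) (Finset.mem_univ _))
  refine core_vertex Δ hE K P hP (convex_convexHull ℝ A) hKP
    (fun i => hP.of_isClosed_subset (hKcl i) (hKP i)) hKc
    (fun i => ⟨p {i}, hpK {i} (hsing i) ⟨i, by simp⟩ i (by simp)⟩) ?_ ?_ ?_ a F hF haF
  · intro x hx
    obtain ⟨i, hi⟩ := hL x hx
    exact ⟨i, hball i x hx ((ball_subset_ball (min_le_left _ _)).trans hi)⟩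
  · intro σ hσ
    rcases σ.eq_empty_or_nonempty with rfl | hne
    · exact ⟨p {a}, hAP _ (hsing a) ⟨a, by simp⟩, by simp⟩
    · exact ⟨p σ, hAP σ hσ hne, hpK σ hσ hne⟩
  · intro σ hσ z
    have hne : σ.Nonempty := by
      rw [Finset.nonempty_iff_ne_empty]
      rintro rfl
      exact hσ hE
    by_contra hcon
    push Not at hcon
    apply hσ
    rw [hnerve σ hne]
    refine ⟨z, ?_⟩
    rw [mem_iInter₂]
    intro i hi
    exact hKU i (hcon i hi)

end Pool.Agent.Helper221.CUR
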