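import Pool.Agent.Helper221.CUR.Defs

/-!
# Shellable complexes are constructible
-/

set_option autoImplicit false

namespace Pool.Agent.Helper221.CUR

open Finset

variable {n : ℕ}

/-- part of the boundary of a simplex -/
theorem constructible_bdry (R : Finset (Fin n)) : ∀ σ : Finset (Fin n), R ⊆ σ → R.Nonempty →
    Constructible (σ.card - 1) {τ | τ ⊆ σ ∧ ∃ r ∈ R, r ∉ τ} := by
  classical
  induction R using Finset.induction_on with
  | empty => intro σ _ h; exact absurd h (by simp)
  | insert r R hr ih =>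
    intro σ hR _
    have hrσ : r ∈ σ := hR (mem_insert_self _ _)
    have hRσ : R ⊆ σ := fun x hx => hR (mem_insert_of_mem hx)
    have hsimp : Constructible (σ.card - 1) {τ | τ ⊆ σ.erase r} := by
      have := Constructible.simplex (σ.erase r)
      rwa [card_erase_of_mem hrσ] at this
    rcases R.eq_empty_or_nonempty with rfl | hne
    · have : {τ | τ ⊆ σ ∧ ∃ r' ∈ insert r (∅ : Finset (Fin n)), r' ∉ τ} =
          {τ | τ ⊆ σ.erase r} := by
        ext τ
        simp only [Set.mem_ofPred_eq, insert_empty_eq, mem_singleton, exists_eq_left, subset_erase]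
      rw [this]
      exact hsimp
    · have hRr : R ⊆ σ.erase r := by
        intro x hx
        rw [mem_erase]
        exact ⟨fun h => hr (h ▸ hx), hRσ hx⟩
      have h1 := ih σ hRσ hne
      have h2 := ih (σ.erase r) hRr hne
      have hcard : 2 ≤ σ.card := by
        have h3 : (insert r R).card ≤ σ.card := card_le_card hR
        rw [card_insert_of_notMem hr] at h3
        have := hne.card_pos
        omega
      obtain ⟨c, hc⟩ : ∃ c, σ.card = c + 2 := ⟨σ.card - 2, by omega⟩
      have hc1 : σ.card - 1 = c + 1 := by omega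
      have hc2 : (σ.erase r).card - 1 = c := by rw [card_erase_of_mem hrσ]; omega
      rw [hc2] at h2
      rw [hc1] at h1 hsimp ⊢
      have h4 : {τ | τ ⊆ σ ∧ ∃ r' ∈ R, r' ∉ τ} ∩ {τ | τ ⊆ σ.erase r} =
          {τ | τ ⊆ σ.erase r ∧ ∃ r' ∈ R, r' ∉ τ} := by
        ext τ
        simp only [Set.mem_inter_iff, Set.mem_ofPred_eq]
        constructor
        · rintro ⟨⟨-, h⟩, h'⟩
          exact ⟨h', h⟩
        · rintro ⟨h', h⟩
          exact ⟨⟨h'.trans (erase_subset _ _), h⟩, h'⟩
      have h5 : {τ | τ ⊆ σ ∧ ∃ r' ∈ insert r R, r' ∉ τ} =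
          {τ | τ ⊆ σ ∧ ∃ r' ∈ R, r' ∉ τ} ∪ {τ | τ ⊆ σ.erase r} := by
        ext τ
        simp only [Set.mem_union, Set.mem_ofPred_eq, mem_insert, exists_eq_or_imp, subset_erase]
        constructor
        · rintro ⟨h, h' | h'⟩
          · exact Or.inr ⟨h, h'⟩
          · exact Or.inl ⟨h, h'⟩
        · rintro (⟨h, h'⟩ | ⟨h, h'⟩)
          · exact ⟨h, Or.inr h'⟩
          · exact ⟨h, Or.inl h'⟩
      rw [h5]
      exact Constructible.union c _ _ h1 hsimp (by rw [h4]; exact h2)

/-- every member of a finite family lies in a maximal one -/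
theorem PureCard.exists_card {C : Set (Finset (Fin n))} {c : ℕ} (h : PureCard C c)
    {G : Finset (Fin n)} (hG : G ∈ C) : ∃ H ∈ C, G ⊆ H ∧ H.card = c := by
  obtain ⟨H, hGH, hH⟩ := (Set.toFinite C).exists_le_maximal hG
  exact ⟨H, hH.prop, hGH, h.2 H hH⟩

/-- Shellable complexes are constructible. -/
theorem Cpx.Shellable.constructible {Δ : Cpx n} {k : ℕ} (h : Δ.Shellable k) :
    Constructible (k + 1) (Δ.faces : Set (Finset (Fin n))) := by
  classical
  obtain ⟨hp, l, -, hl, hs⟩ := h
  have hcard : ∀ F ∈ l, F.card = k + 1 := fun F hF => hp.2 F ((hl F).1 hF)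
  have hfaces : (Δ.faces : Set (Finset (Fin n))) = {τ | ∃ (i : ℕ) (hi : i < l.length), τ ⊆ l[i]} := by
    ext τ
    rw [mem_coe, Set.mem_ofPred_eq]
    constructor
    · intro hτ
      obtain ⟨H, hτH, hH⟩ := (Δ.faces.finite_toSet).exists_le_maximal (a := τ) hτ
      have hHl : H ∈ l := (hl H).2 hH
      obtain ⟨i, hi, rfl⟩ := List.getElem_of_mem hHl
      exact ⟨i, hi, hτH⟩
    · rintro ⟨i, hi, hτ⟩
      exact Δ.down _ ((hl _).1 (List.getElem_mem hi)).prop _ hτ
  have hpos : 0 < l.length := by
    obtain ⟨τ, hτ⟩ := hp.1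
    rw [hfaces] at hτ
    obtain ⟨i, hi, -⟩ := hτ
    omega
  rw [hfaces]
  have key : ∀ m, 0 < m → m ≤ l.length →
      Constructible (k + 1) {τ | ∃ (i : ℕ) (hi : i < l.length), i < m ∧ τ ⊆ l[i]} := by
    intro m
    induction m with
    | zero => intro h; omega
    | succ m ih =>
      intro _ hm
      rcases Nat.eq_zero_or_pos m with rfl | hm0
      · have : {τ | ∃ (i : ℕ) (hi : i < l.length), i < 0 + 1 ∧ τ ⊆ l[i]} = {τ | τ ⊆ l[0]} := by
          ext τ
          simp only [Set.mem_ofPred_eq]
          constructor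
          · rintro ⟨i, hi, h0, h1⟩
            have : i = 0 := by omega
            subst this
            exact h1
          · intro h1
            exact ⟨0, hpos, by omega, h1⟩
        rw [this]
        have h2 := Constructible.simplex l[0]
        rwa [hcard _ (List.getElem_mem _)] at h2
      · have hm' : m < l.length := by omega
        have h1 := ih hm0 (by omega)
        have h2 : {τ | ∃ (i : ℕ) (hi : i < l.length), i < m + 1 ∧ τ ⊆ l[i]} =
            {τ | ∃ (i : ℕ) (hi : i < l.length), i < m ∧ τ ⊆ l[i]} ∪ {τ | τ ⊆ l[m]} := by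
          ext τ
          simp only [Set.mem_ofPred_eq, Set.mem_union]
          constructor
          · rintro ⟨i, hi, h3, h4⟩
            rcases Nat.lt_or_ge i m with h5 | h5
            · exact Or.inl ⟨i, hi, h5, h4⟩
            · have : i = m := by omega
              subst this
              exact Or.inr h4
          · rintro (⟨i, hi, h3, h4⟩ | h4)
            · exact ⟨i, hi, by omega, h4⟩
            · exact ⟨m, hm', by omega, h4⟩
        rw [h2]
        have h3 := Constructible.simplex l[m]
        rw [hcard _ (List.getElem_mem _)] at h3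
        refine Constructible.union k _ _ h1 h3 ?_
        set C : Set (Finset (Fin n)) := {G | G ⊆ l[m] ∧ ∃ (i : ℕ) (hi : i < m), G ⊆ l[i]} with hC
        have hCp : PureCard C k := hs m hm' hm0
        set R : Finset (Fin n) := l[m].filter (fun r => l[m].erase r ∈ C) with hR
        have h4 : {τ | ∃ (i : ℕ) (hi : i < l.length), i < m ∧ τ ⊆ l[i]} ∩ {τ | τ ⊆ l[m]} =
            {τ | τ ⊆ l[m] ∧ ∃ r ∈ R, r ∉ τ} := by
          ext τ
          simp only [Set.mem_inter_iff, Set.mem_ofPred_eq]
          constructor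
          · rintro ⟨⟨i, hi, him, hτi⟩, hτ⟩
            refine ⟨hτ, ?_⟩
            obtain ⟨H, hH, hτH, hHc⟩ := hCp.exists_card (G := τ) ⟨hτ, i, him, hτi⟩
            have h5 : (l[m] \ H).card = 1 := by
              rw [card_sdiff_of_subset hH.1, hcard _ (List.getElem_mem _), hHc]; omega
            obtain ⟨r, hr⟩ := card_eq_one.1 h5
            have hrm : r ∈ l[m] \ H := by rw [hr]; simp
            rw [mem_sdiff] at hrm
            have h6 : l[m].erase r = H := by
              ext x
              rw [mem_erase]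
              constructor
              · rintro ⟨hxr, hx⟩
                by_contra hxH
                have : x ∈ l[m] \ H := mem_sdiff.2 ⟨hx, hxH⟩
                rw [hr, mem_singleton] at this
                exact hxr this
              · intro hx
                exact ⟨fun h => hrm.2 (h ▸ hx), hH.1 hx⟩
            refine ⟨r, ?_, fun hrτ => hrm.2 (hτH hrτ)⟩
            rw [hR, mem_filter]
            exact ⟨hrm.1, by rw [h6]; exact hH⟩
          · rintro ⟨hτ, r, hr, hrτ⟩
            rw [hR, mem_filter] at hr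
            obtain ⟨hr1, -, i, hi, h7⟩ := hr
            refine ⟨⟨i, by omega, hi, ?_⟩, hτ⟩
            refine Subset.trans ?_ h7
            rw [subset_erase]
            exact ⟨hτ, hrτ⟩
        rw [h4]
        have hRne : R.Nonempty := by
          obtain ⟨G, hG⟩ := hCp.1
          have hG' : G ∈ {τ | ∃ (i : ℕ) (hi : i < l.length), i < m ∧ τ ⊆ l[i]} ∩ {τ | τ ⊆ l[m]} := by
            obtain ⟨hG1, i, hi, hG2⟩ := hG
            exact ⟨⟨i, by omega, hi, hG2⟩, hG1⟩
          rw [h4] at hG'
          obtain ⟨-, r, hr, -⟩ := hG'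
          exact ⟨r, hr⟩
        have h8 := constructible_bdry R l[m] (filter_subset _ _) hRne
        rwa [hcard _ (List.getElem_mem _)] at h8
  have h9 := key l.length hpos le_rfl
  have h10 : {τ | ∃ (i : ℕ) (hi : i < l.length), i < l.length ∧ τ ⊆ l[i]} =
      {τ | ∃ (i : ℕ) (hi : i < l.length), τ ⊆ l[i]} := by
    ext τ
    simp only [Set.mem_ofPred_eq]
    constructor
    · rintro ⟨i, hi, -, h⟩
      exact ⟨i, hi, h⟩
    · rintro ⟨i, hi, h⟩
      exact ⟨i, hi, hi, h⟩
  rw [← h10]
  exact h9

end Pool.Agent.Helper221.CUR
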