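import Pool.Agent.Helper221.CUR.Data
import Pool.Agent.Helper221.CUR.Lemma
import Pool.Agent.Helper221.CUR.Shell

/-!
# The complex is a shellable ball and is not convex union representable
-/

set_option autoImplicit false

namespace Pool.Agent.Helper221.CUR

open Finset Pool.Agent.Helper175.NS Pool.Agent.W296.NP

theorem tf_inj {m m' : ℕ} (hm : m < 4096) (hm' : m' < 4096) (h : tf m = tf m') : m = m' := by
  apply Nat.eq_of_testBit_eq
  intro i
  rcases Nat.lt_or_ge i 12 with hi | hi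
  · have h1 : (⟨i, hi⟩ : Fin 12) ∈ tf m ↔ (⟨i, hi⟩ : Fin 12) ∈ tf m' := by rw [h]
    rw [mem_tf, mem_tf] at h1
    exact Bool.eq_iff_iff.2 h1
  · rw [testBit_ge hm hi, testBit_ge hm' hi]

theorem ML_card : ∀ m ∈ ML, (tf m).card = 4 := by decide +kernel

theorem ML_nodup : ML.Nodup := by decide +kernel

theorem tf_ML_mem {m : ℕ} (hm : m ∈ ML) : tf m ∈ BB.faces := mem_BB.2 ⟨m, hm, Subset.refl _⟩

theorem maximal_iff (F : Finset (Fin 12)) : Maximal (· ∈ BB.faces) F ↔ ∃ m ∈ ML, tf m = F := by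
  constructor
  · intro h
    obtain ⟨m, hm, hF⟩ := mem_BB.1 h.prop
    exact ⟨m, hm, (h.eq_of_le (tf_ML_mem hm) hF).symm⟩
  · rintro ⟨m, hm, rfl⟩
    refine ⟨tf_ML_mem hm, fun G hG hmG => ?_⟩
    obtain ⟨m', hm', hG'⟩ := mem_BB.1 hG
    have h1 : tf m = tf m' := eq_of_subset_of_card_le (Subset.trans hmG hG')
      (by rw [ML_card m hm, ML_card m' hm'])
    show G ⊆ tf m
    rw [h1]
    exact hG'

/-- the intersection of the simplices `f` and `h` is a triangle -/
def triB (f h : ℕ) : Bool :=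
  (List.range 12).any fun r => f.testBit r && Nat.beq (f &&& h) (f ^^^ 2 ^ r)

/-- a shelling step -/
def okStep (pre : List ℕ) (f : ℕ) : Bool :=
  pre.all fun g => pre.any fun h => Nat.beq ((f &&& g) &&& (f &&& h)) (f &&& g) && triB f h

theorem ok_all : ∀ j < 52, okStep (ML.take j) (ML.getD j 0) = true := by decide +kernel

theorem ML_length : ML.length = 52 := by decide +kernel

theorem triB_spec {f h : ℕ} (_hf : f < 4096) (ht : triB f h = true) :
    ∃ r ∈ tf f, tf (f &&& h) = (tf f).erase r := by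
  rw [triB, List.any_eq_true] at ht
  obtain ⟨r, hr, h1⟩ := ht
  rw [List.mem_range] at hr
  rw [Bool.and_eq_true, Nat.beq_eq] at h1
  refine ⟨⟨r, hr⟩, mem_tf.2 h1.1, ?_⟩
  ext i
  rw [h1.2, mem_erase, mem_tf, mem_tf, Nat.testBit_xor, Nat.testBit_two_pow]
  by_cases hir : i = ⟨r, hr⟩
  · subst hir; simp [h1.1]
  · have : ¬ r = i.val := fun h => hir (Fin.ext h.symm)
    simp [this, hir]

theorem tf_and (f g : ℕ) : tf (f &&& g) = tf f ∩ tf g := by
  ext i
  rw [mem_inter, mem_tf, mem_tf, mem_tf, Nat.testBit_and, Bool.and_eq_true]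

theorem and_lt {f g : ℕ} (hf : f < 4096) : f &&& g < 4096 := lt_of_le_of_lt Nat.and_le_left hf

theorem BB_shellable : BB.Shellable 3 := by
  refine ⟨⟨⟨∅, BB.empty_mem⟩, ?_⟩, ML.map tf, ?_, ?_, ?_⟩
  · intro G hG
    obtain ⟨m, hm, rfl⟩ := (maximal_iff G).1 hG
    exact ML_card m hm
  · exact List.Nodup.map_on (fun x hx y hy h => tf_inj (ML_lt x hx) (ML_lt y hy) h) ML_nodup
  · intro F
    rw [maximal_iff, List.mem_map]
  · intro j hj hj0
    rw [List.length_map] at hj
    have hget : ∀ (i : ℕ) (hi : i < ML.length), (ML.map tf)[i]'(by rw [List.length_map]; exact hi) =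
        tf ML[i] := fun i hi => by rw [List.getElem_map]
    have hC : {G | G ⊆ (ML.map tf)[j]'(by rw [List.length_map]; exact hj) ∧
        ∃ (i : ℕ) (hi : i < j), G ⊆ (ML.map tf)[i]'(by rw [List.length_map]; omega)} =
        {G | G ⊆ tf ML[j] ∧ ∃ g ∈ ML.take j, G ⊆ tf g} := by
      ext G
      rw [Set.mem_ofPred_eq, Set.mem_ofPred_eq, hget j hj]
      refine and_congr_right fun _ => ?_
      constructor
      · rintro ⟨i, hi, h⟩
        rw [hget i (by omega)] at h
        exact ⟨ML[i], List.mem_take_iff_getElem.2 ⟨i, by omega, rfl⟩, h⟩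
      · rintro ⟨g, hg, h⟩
        obtain ⟨i, hi, rfl⟩ := List.mem_take_iff_getElem.1 hg
        refine ⟨i, by omega, ?_⟩
        rw [hget i (by omega)]
        exact h
    have hC' : PureCard {G | G ⊆ tf ML[j] ∧ ∃ g ∈ ML.take j, G ⊆ tf g} 3 := by
      have hok := ok_all j (by rw [← ML_length]; exact hj)
      rw [List.getD_eq_getElem _ _ hj, okStep, List.all_eq_true] at hok
      refine ⟨⟨∅, empty_subset _, ML[0]'(by omega),
        List.mem_take_iff_getElem.2 ⟨0, by omega, rfl⟩, empty_subset _⟩, ?_⟩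
      intro G hG
      obtain ⟨hG1, g, hg, hG2⟩ := hG.prop
      have h1 := hok g hg
      rw [List.any_eq_true] at h1
      obtain ⟨h, hh, h2⟩ := h1
      rw [Bool.and_eq_true, Nat.beq_eq] at h2
      have hjlt : ML[j] < 4096 := ML_lt _ (List.getElem_mem hj)
      obtain ⟨r, hr, h3⟩ := triB_spec hjlt h2.2
      have h4 : G ⊆ tf (ML[j] &&& h) := by
        refine Subset.trans ?_ ((tf_subset (and_lt hjlt)).2 h2.1)
        rw [tf_and]
        exact subset_inter hG1 hG2
      have h5 : tf (ML[j] &&& h) ∈ {G | G ⊆ tf ML[j] ∧ ∃ g ∈ ML.take j, G ⊆ tf g} := by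
        rw [tf_and]
        exact ⟨inter_subset_left, h, hh, inter_subset_right⟩
      have h6 : G = tf (ML[j] &&& h) := hG.eq_of_le h5 h4
      rw [h6, h3, card_erase_of_mem hr, ML_card _ (List.getElem_mem hj)]
    rw [← hC] at hC'
    exact hC'

theorem tf_image {m : ℕ} (hm : m < 4096) : (tf m).image Fin.val = de m := by
  ext k
  rw [mem_image, mem_de]
  constructor
  · rintro ⟨i, hi, rfl⟩
    exact ⟨by omega, mem_tf.1 hi⟩
  · rintro ⟨-, hk⟩
    rcases Nat.lt_or_ge k 12 with h | h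
    · exact ⟨⟨k, h⟩, mem_tf.2 hk, rfl⟩
    · rw [testBit_ge hm h] at hk
      exact absurd hk (by simp)

theorem space_eq_Sp : BB.space = Sp (ML.map tf).toFinset := by
  ext x
  constructor
  · rintro ⟨h0, h1, h2⟩
    obtain ⟨m, hm, h3⟩ := mem_BB.1 h2
    have h4 : ∀ v, v ∉ tf m → x v = 0 := by
      intro v hv
      by_contra hcon
      exact hv (h3 (mem_filter.2 ⟨mem_univ _, hcon⟩))
    refine ⟨h0, tf m, ?_, h4, ?_⟩
    · rw [List.mem_toFinset, List.mem_map]
      exact ⟨m, hm, rfl⟩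
    · rw [← h1]
      exact sum_subset (subset_univ _) (fun i _ hi => h4 i hi)
  · rintro ⟨h0, F, hF, h1, h2⟩
    rw [List.mem_toFinset, List.mem_map] at hF
    obtain ⟨m, hm, rfl⟩ := hF
    refine ⟨h0, ?_, ?_⟩
    · rw [← h2]
      exact (sum_subset (subset_univ _) (fun i _ hi => h1 i hi)).symm
    · refine mem_BB.2 ⟨m, hm, ?_⟩
      intro i hi
      rw [mem_filter] at hi
      by_contra hcon
      exact hi.2 (h1 i hcon)

theorem image_eq : (ML.map tf).toFinset.image (fun F => F.image Fin.val) = deL ML := by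
  ext A
  rw [mem_image, mem_deL]
  constructor
  · rintro ⟨F, hF, rfl⟩
    rw [List.mem_toFinset, List.mem_map] at hF
    obtain ⟨m, hm, rfl⟩ := hF
    exact ⟨m, hm, (tf_image (ML_lt m hm)).symm⟩
  · rintro ⟨m, hm, rfl⟩
    refine ⟨tf m, ?_, tf_image (ML_lt m hm)⟩
    rw [List.mem_toFinset, List.mem_map]
    exact ⟨m, hm, rfl⟩

theorem chain_ok : chainE ML MS [554] = true := by decide +kernel

theorem BB_ball : BB.IsBall 3 := by
  obtain ⟨e1⟩ := relabel_homeo (ML.map tf).toFinset (Fin.val : Fin 12 → ℕ) univ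
    (fun F _ => subset_univ F) (Fin.val_injective.injOn)
  rw [image_eq] at e1
  obtain ⟨e2⟩ := chainE_homeo MS ML [554] (fun m hm => (ML_lt m hm).trans (by norm_num)) chain_ok
  have h1 : deL [554] = {de 554} := rfl
  rw [h1] at e2
  obtain ⟨e3⟩ := Pool.Agent.H933R3.simplex_ball (de 554) 3 (by decide +kernel)
  exact ⟨(Homeomorph.setCongr space_eq_Sp).trans ((e1.symm.trans e2).trans e3)⟩

theorem sing_mask : ∀ i < 12, FB.testBit (2 ^ i) = true := by decide +kernel

theorem BB_not_cur : ¬ BB.ConvexUnionRepresentable := by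
  rintro ⟨d, U, hU, hUc, hUU, h⟩
  have hsing : ∀ i : Fin 12, {i} ∈ BB.faces := by
    intro i
    have hlt : 2 ^ i.val < 4096 := by
      have : (2:ℕ) ^ i.val < 2 ^ 12 := Nat.pow_lt_pow_right (by norm_num) i.isLt
      omega
    have h1 : tf (2 ^ i.val) = {i} := by
      ext j
      rw [mem_tf, Nat.testBit_two_pow, mem_singleton]
      constructor
      · intro h
        exact (Fin.ext (of_decide_eq_true h)).symm
      · rintro rfl
        simp
    rw [← h1, tf_mem_BB' hlt]
    exact sing_mask i.val i.isLt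
  have hnerve : ∀ σ : Finset (Fin 12), σ.Nonempty → (σ ∈ BB.faces ↔ (⋂ i ∈ σ, U i).Nonempty) := by
    intro σ hσ
    rw [h σ]
    constructor
    · rintro (⟨h1, -⟩ | ⟨-, h2⟩)
      · exact absurd h1 hσ.ne_empty
      · exact h2
    · intro h2
      exact Or.inr ⟨hσ.ne_empty, h2⟩
  have hF : tf 12 ∈ BB.faces := (tf_mem_BB' (by norm_num)).2 (by decide +kernel)
  have haF : insert (0 : Fin 12) (tf 12) ∉ BB.faces := by
    have h1 : insert (0 : Fin 12) (tf 12) = tf 13 := by decide +kernel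
    rw [h1, tf_mem_BB' (by norm_num)]
    decide +kernel
  obtain ⟨N, hN, h0, v, hv, hins⟩ := exists_pair BB.faces BB.empty_mem hsing U hU hUc hUU hnerve
    0 (tf 12) hF haF
  obtain ⟨u, hu, h2⟩ := noPair N hN h0 v hv
  exact h2 (hins u hu)

end Pool.Agent.Helper221.CUR
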